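import Pool.Agent.helper67.DL.SpecG

/-! # Project dl, module SX: subharmonic functions on a compact connected surface are constant -/

namespace Pool.Agent.DL

open Matrix Complex
open scoped ComplexOrder Manifold ContDiff

theorem SX_cont {X : Type} [TopologicalSpace X] [ChartedSpace ℂ X] (N : X → ℝ)
    (hN : ∀ e ∈ atlas ℂ X, ContDiffOn ℝ 2 (fun z => N (e.symm z)) e.target) : Continuous N := by
  rw [continuous_iff_continuousAt]
  intro x
  have h1 := (hN _ (chart_mem_atlas ℂ x)).continuousOn
  have h2 : ContinuousAt (fun z => N ((chartAt ℂ x).symm z)) (chartAt ℂ x x) :=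
    h1.continuousAt ((chartAt ℂ x).open_target.mem_nhds (mem_chart_target ℂ x))
  have h3 : ContinuousAt (chartAt ℂ x) x :=
    (chartAt ℂ x).continuousAt (mem_chart_source ℂ x)
  have h4 : ContinuousAt (fun y => N ((chartAt ℂ x).symm (chartAt ℂ x y))) x :=
    ContinuousAt.comp (g := fun z => N ((chartAt ℂ x).symm z)) h2 h3
  refine h4.congr ?_
  filter_upwards [(chartAt ℂ x).open_source.mem_nhds (mem_chart_source ℂ x)] with y hy
  rw [(chartAt ℂ x).left_inv hy]

theorem SX (hSM : SM_stmt) : SX_stmt := by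
  intro X _ _ hK hC N hN
  have hcont : Continuous N := SX_cont N fun e he => (hN e he).1
  obtain ⟨x0, -, hx0⟩ := isCompact_univ.exists_isMaxOn (Set.univ_nonempty (α := X))
    hcont.continuousOn
  have hmax : ∀ y, N y ≤ N x0 := fun y => hx0 (Set.mem_univ y)
  have hclosed : IsClosed {x | N x = N x0} := isClosed_eq hcont continuous_const
  have hopen : IsOpen {x | N x = N x0} := by
    rw [isOpen_iff_mem_nhds]
    intro x hx
    have hx' : N x = N x0 := hx
    have he := chart_mem_atlas ℂ x
    have ht := (chartAt ℂ x).open_target.mem_nhds (mem_chart_target ℂ x)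
    obtain ⟨r, hr, hball⟩ := Metric.mem_nhds_iff.mp ht
    have h1 := hSM (fun z => N ((chartAt ℂ x).symm z)) (chartAt ℂ x x) r hr
      ((hN _ he).1.mono hball) (fun z hz => (hN _ he).2 z (hball hz)) (fun z _ => by
        rw [(chartAt ℂ x).left_inv (mem_chart_source ℂ x), hx']
        exact hmax _)
    have h3 : ContinuousAt (chartAt ℂ x) x :=
      (chartAt ℂ x).continuousAt (mem_chart_source ℂ x)
    filter_upwards [(chartAt ℂ x).open_source.mem_nhds (mem_chart_source ℂ x),
      h3 (Metric.ball_mem_nhds _ hr)] with y hy hy'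
    have h4 := h1 _ hy'
    simp only [(chartAt ℂ x).left_inv hy, (chartAt ℂ x).left_inv (mem_chart_source ℂ x)] at h4
    show N y = N x0
    rw [h4, hx']
  have huniv : {x | N x = N x0} = Set.univ := IsClopen.eq_univ ⟨hclosed, hopen⟩ ⟨x0, rfl⟩
  intro x y
  have hx : x ∈ {x | N x = N x0} := huniv ▸ Set.mem_univ x
  have hy : y ∈ {x | N x = N x0} := huniv ▸ Set.mem_univ y
  exact hx.trans hy.symm

end Pool.Agent.DL
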