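import Pool.Agent.helper67.DL.SpecX

/-! # Project dl, part X, module X08: the coordinate functions in the charts `E d` -/

namespace Pool.Agent.DL

open Matrix Complex
open scoped ComplexOrder Manifold ContDiff

theorem X08_r4 (h2 : X02_stmt) (d : ℂ) :
    DifferentiableOn ℂ (fun z => d * r4 (mm (z ^ 2))) eT := by
  intro z hz
  obtain ⟨h1, h3⟩ := hz
  have hr := h2.2.2.2.2.2
  have hmm : DifferentiableAt ℂ (fun z : ℂ => mm (z ^ 2)) z := by
    unfold mm
    exact ((differentiableAt_const 1).sub (differentiableAt_id.pow 2)).div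
      ((differentiableAt_const 1).add (differentiableAt_id.pow 2)) h1
  have hr4 : DifferentiableAt ℂ r4 (mm (z ^ 2)) :=
    (hr _ h3).differentiableAt (isOpen_slitPlane.mem_nhds h3)
  exact ((DifferentiableAt.comp z hr4 hmm).const_mul d).differentiableWithinAt

theorem X08 (h1 : X01_stmt) (h2 : X02_stmt) : X08_stmt := by
  intro ch hch d e he
  obtain ⟨hs, ht, -, hsymm⟩ := hch.2 d
  rw [← he] at hs ht hsymm
  have hval := h1.2.2.2.2.1
  have hd8 : (d.1 : ℂ) ^ 8 = 1 := d.2
  have hd0 : (d.1 : ℂ) ≠ 0 := by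
    intro h0
    rw [h0] at hd8
    norm_num at hd8
  have hfZ : ∀ z ∈ e.target, fZ (e.symm z) = d.1 * r4 (mm (z ^ 2)) := by
    intro z hz
    unfold fZ
    rw [hsymm z (ht ▸ hz)]
    exact (hval _).1
  have hfN : ∀ z ∈ e.target, fN (e.symm z) = (d.1 * r4 (mm (z ^ 2)))⁻¹ := by
    intro z hz
    unfold fN
    rw [hsymm z (ht ▸ hz)]
    exact (hval _).2.1
  have hne : ∀ z ∈ e.target, d.1 * r4 (mm (z ^ 2)) ≠ 0 := by
    intro z hz
    rw [ht] at hz
    refine mul_ne_zero hd0 ?_
    intro h0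
    have h3 := (h2.2.2.1 _ hz.2).1
    rw [h0] at h3
    have h4 : mm (z ^ 2) ≠ 0 := slitPlane_ne_zero hz.2
    apply h4
    rw [← h3]
    norm_num
  have hdiff : DifferentiableOn ℂ (fun z => d.1 * r4 (mm (z ^ 2))) e.target := by
    rw [ht]
    exact X08_r4 h2 d.1
  refine ⟨?_, ?_, ?_, ?_⟩
  · exact (hdiff.mono Set.inter_subset_left).congr fun z hz => hfZ z hz.1
  · exact ((hdiff.inv hne).mono Set.inter_subset_left).congr fun z hz => hfN z hz.1
  · by_cases hd : (d.1 : ℂ) ^ 4 = 1
    · refine (differentiableOn_id (𝕜 := ℂ)).congr fun z hz => ?_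
      unfold fY
      rw [hsymm z (ht ▸ hz.1)]
      unfold ei
      rw [if_pos hd]
      exact (hval _).1
    · have hz0 : ∀ z ∈ e.target ∩ e.symm ⁻¹' uY, z ≠ 0 := by
        rintro z ⟨hz, hz'⟩ rfl
        have h3 : (e.symm 0).1.2 ≠ OnePoint.infty := hz'
        rw [hsymm 0 (ht ▸ hz)] at h3
        unfold ei at h3
        rw [if_neg hd] at h3
        apply h3
        unfold ic
        exact if_pos rfl
      refine ((differentiableOn_id (𝕜 := ℂ)).inv hz0).congr fun z hz => ?_
      unfold fY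
      rw [hsymm z (ht ▸ hz.1)]
      unfold ei
      rw [if_neg hd]
      exact (hval _).2.2.2
  · by_cases hd : (d.1 : ℂ) ^ 4 = 1
    · have hz0 : ∀ z ∈ e.target ∩ e.symm ⁻¹' uV, z ≠ 0 := by
        rintro z ⟨hz, hz'⟩ rfl
        have h3 : (e.symm 0).1.2 ≠ OnePoint.some 0 := hz'
        rw [hsymm 0 (ht ▸ hz)] at h3
        unfold ei at h3
        rw [if_pos hd] at h3
        exact h3 rfl
      refine ((differentiableOn_id (𝕜 := ℂ)).inv hz0).congr fun z hz => ?_
      unfold fV
      rw [hsymm z (ht ▸ hz.1)]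
      unfold ei
      rw [if_pos hd]
      exact (hval _).2.1
    · refine (differentiableOn_id (𝕜 := ℂ)).congr fun z hz => ?_
      unfold fV
      rw [hsymm z (ht ▸ hz.1)]
      unfold ei
      rw [if_neg hd]
      exact (hval _).2.2.1

end Pool.Agent.DL
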